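import Mathlib

set_option autoImplicit false

/-!
For every `a ≥ 3` there is a connected graph `G` with `sg (G) = a ^ 2` and
`sg (G □ K_2) ≤ 2 a + 1`.

The graph `G` has `a` hubs, three vertices (`middles`) of degree three for each pair of hubs, adjacent
to the two hubs of the pair, and one vertex `z` adjacent to all others. The diameter is two and a
middle is an interior vertex only of geodesics between its two hubs, so that a strong geodetic set
misses at most one middle for each pair of hubs it contains. In `G □ K_2` there are four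
geodesics between the copies of two hubs, and they cover the copies of all three middles.
-/

namespace Pool.Agent.Results.MP_8400ad_co.PrismCounterexamples

open SimpleGraph

/-- `S` is a strong geodetic set of `G`: one can choose for every unordered pair `{x, y}` of distinct
vertices of `S` one geodesic between `x` and `y` (a walk whose length is the distance; `P s(x, y)` is
the set of its vertices) so that every vertex of `G` lies on a chosen geodesic. -/
def IsStrongGeodetic {V : Type*} (G : SimpleGraph V) (S : Finset V) : Prop :=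
  ∃ P : Sym2 V → Set V,
    (∀ x ∈ S, ∀ y ∈ S, x ≠ y →
      ∃ w : G.Walk x y, w.length = G.dist x y ∧ P s(x, y) = {v | v ∈ w.support}) ∧
    ∀ v : V, ∃ x ∈ S, ∃ y ∈ S, x ≠ y ∧ v ∈ P s(x, y)

/-- The strong geodetic number of `G`: the least size of a strong geodetic set. -/
noncomputable def sg {V : Type*} (G : SimpleGraph V) : ℕ :=
  sInf {n | ∃ S : Finset V, S.card = n ∧ IsStrongGeodetic G S}

/-- Some chosen geodesics are enough. -/
theorem isStrongGeodetic_of {V : Type*} {G : SimpleGraph V} (hG : G.Connected) (S : Finset V)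
    (hS : 2 ≤ S.card) {ι : Type*} (x y : ι → V) (hx : ∀ i, x i ∈ S) (hy : ∀ i, y i ∈ S)
    (hxy : ∀ i, x i ≠ y i) (A : ι → Set V)
    (hA : ∀ i, ∃ w : G.Walk (x i) (y i), w.length = G.dist (x i) (y i) ∧ ∀ v ∈ A i, v ∈ w.support)
    (hinj : ∀ i j, s(x i, y i) = s(x j, y j) → i = j)
    (hcov : ∀ v, v ∈ S ∨ ∃ i, v ∈ A i) : IsStrongGeodetic G S := by
  classical
  choose w hw hwA using hA
  have key : ∀ e : Sym2 V, ∃ A : Set V,
      (∀ a b, e = s(a, b) → ∃ u : G.Walk a b, u.length = G.dist a b ∧ A = {v | v ∈ u.support}) ∧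
      (∀ i, e = s(x i, y i) → A = {v | v ∈ (w i).support}) := by
    intro e
    by_cases h : ∃ i, e = s(x i, y i)
    · obtain ⟨i, rfl⟩ := h
      refine ⟨{v | v ∈ (w i).support}, ?_, ?_⟩
      · intro a b hab
        rw [Sym2.eq_iff] at hab
        rcases hab with ⟨rfl, rfl⟩ | ⟨h1, h2⟩
        · exact ⟨w i, hw i, rfl⟩
        · subst h1 h2
          refine ⟨(w i).reverse, ?_, ?_⟩
          · rw [Walk.length_reverse, hw i, dist_comm]
          · ext v
            simp
      · intro j hj
        rw [hinj i j hj]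
    · induction e using Sym2.ind with
      | _ a b =>
        obtain ⟨u, hu⟩ := hG.exists_walk_length_eq_dist a b
        refine ⟨{v | v ∈ u.support}, ?_, fun i hi => absurd ⟨i, hi⟩ h⟩
        intro c d hcd
        rw [Sym2.eq_iff] at hcd
        rcases hcd with ⟨rfl, rfl⟩ | ⟨h1, h2⟩
        · exact ⟨u, hu, rfl⟩
        · subst h1 h2
          refine ⟨u.reverse, ?_, ?_⟩
          · rw [Walk.length_reverse, hu, dist_comm]
          · ext v
            simp
  choose P hP1 hP2 using key
  refine ⟨P, fun a _ b _ _ => hP1 _ a b rfl, fun v => ?_⟩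
  rcases hcov v with h | ⟨i, hi⟩
  · obtain ⟨b, hb, hbv⟩ := Finset.exists_mem_ne (by omega : 1 < S.card) v
    obtain ⟨u, -, hu⟩ := hP1 _ v b rfl
    exact ⟨v, h, b, hb, hbv.symm, by rw [hu]; exact u.start_mem_support⟩
  · exact ⟨x i, hx i, y i, hy i, hxy i, by rw [hP2 _ i rfl]; exact hwA i v hi⟩

/-- Pairs of hubs. -/
abbrev Pr (a : ℕ) := {q : Fin a × Fin a // q.1 < q.2}

/-- The vertices: `none` is the vertex `z`, `some (inl i)` is the `i`-th hub, and `some (inr (q, r))`
is the `r`-th middle of the pair `q`. -/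
abbrev Vt (a : ℕ) := Option (Fin a ⊕ (Pr a × Fin 3))

/-- The relation whose symmetric hull is the adjacency. -/
def rel (a : ℕ) : Vt a → Vt a → Prop
  | none, some _ => True
  | some (Sum.inl i), some (Sum.inr m) => i = m.1.1.1 ∨ i = m.1.1.2
  | _, _ => False

/-- The graph. -/
def Gr (a : ℕ) : SimpleGraph (Vt a) where
  Adj u v := rel a u v ∨ rel a v u
  symm := ⟨fun _ _ h => h.symm⟩
  loopless := ⟨fun u h => by
    rcases u with _ | u | u <;> simp [rel] at h⟩

variable {a : ℕ}

/-- hub -/
abbrev hub (i : Fin a) : Vt a := some (Sum.inl i)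
/-- middle -/
abbrev mid (q : Pr a) (r : Fin 3) : Vt a := some (Sum.inr (q, r))

theorem adj_none_some (x) : (Gr a).Adj none (some x) := Or.inl trivial
theorem adj_some_none (x) : (Gr a).Adj (some x) none := Or.inr trivial
theorem adj_hub_mid (i : Fin a) (q : Pr a) (r) :
    (Gr a).Adj (hub i) (mid q r) ↔ i = q.1.1 ∨ i = q.1.2 := by
  simp [Gr, rel]
theorem not_adj_hub (i j : Fin a) : ¬ (Gr a).Adj (hub i) (hub j) := by
  simp [Gr, rel]
theorem not_adj_mid (q q' : Pr a) (r r') : ¬ (Gr a).Adj (mid q r) (mid q' r') := by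
  simp [Gr, rel]

theorem connected : (Gr a).Connected := by
  have : ∀ x : Vt a, (Gr a).Reachable none x := by
    intro x
    rcases x with _ | x
    · exact Reachable.refl _
    · exact (adj_none_some x).reachable
  exact ⟨fun x y => (this x).symm.trans (this y)⟩

theorem dist_le_two (x y : Vt a) : (Gr a).dist x y ≤ 2 := by
  rcases x with _ | x <;> rcases y with _ | y
  · simp
  · exact (dist_le (adj_none_some y).toWalk).trans (by simp)
  · exact (dist_le (adj_some_none x).toWalk).trans (by simp)
  · exact (dist_le ((adj_some_none x).toWalk.append (adj_none_some y).toWalk)).trans (by simp)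

theorem edist_eq_two {x y : Vt a} (h : x ≠ y) (hn : ¬ (Gr a).Adj x y) : (Gr a).edist x y = 2 := by
  have h1 := connected.one_lt_dist_of_ne_of_not_adj h hn
  have h2 := dist_le_two x y
  rw [← (connected.preconnected x y).coe_dist_eq_edist]
  have : (Gr a).dist x y = 2 := by omega
  rw [this]
  rfl

/-- A middle that is not in a strong geodetic set is covered by the geodesic between its hubs. -/
theorem key_lower {S : Finset (Vt a)} {P : Sym2 (Vt a) → Set (Vt a)}
    (hP : ∀ x ∈ S, ∀ y ∈ S, x ≠ y →
      ∃ w : (Gr a).Walk x y, w.length = (Gr a).dist x y ∧ P s(x, y) = {v | v ∈ w.support})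
    (hcov : ∀ v : Vt a, ∃ x ∈ S, ∃ y ∈ S, x ≠ y ∧ v ∈ P s(x, y)) (q : Pr a) (r : Fin 3)
    (hm : mid q r ∉ S) :
    hub q.1.1 ∈ S ∧ hub q.1.2 ∈ S ∧ mid q r ∈ P s(hub q.1.1, hub q.1.2) := by
  obtain ⟨x, hx, y, hy, hxy, hv⟩ := hcov (mid q r)
  obtain ⟨w, hw, hPw⟩ := hP x hx y hy hxy
  have hv' := hv
  rw [hPw] at hv'
  have hmx : mid q r ≠ x := fun h => hm (h ▸ hx)
  have hmy : mid q r ≠ y := fun h => hm (h ▸ hy)
  have hlen : w.length ≤ 2 := hw ▸ dist_le_two x y
  cases w with
  | nil => exact absurd rfl hxy
  | cons h1 w1 =>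
    cases w1 with
    | nil =>
      simp at hv'
      rcases hv' with h | h
      · exact absurd h hmx
      · exact absurd h hmy
    | cons h2 w2 =>
      cases w2 with
      | cons h3 w3 =>
        simp at hlen
      | nil =>
        simp at hv'
        rcases hv' with h | h | h
        · exact absurd h hmx
        · subst h
          have hd : (Gr a).dist x y = 2 := by rw [← hw]; rfl
          have hnadj : ¬ (Gr a).Adj x y := by
            intro hadj
            rw [dist_eq_one_iff_adj.mpr hadj] at hd
            omega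
          have hxn : x ≠ none := by
            rintro rfl
            rcases y with _ | y
            · exact hxy rfl
            · exact hnadj (adj_none_some y)
          have hyn : y ≠ none := by
            rintro rfl
            rcases x with _ | x
            · exact hxy rfl
            · exact hnadj (adj_some_none x)
          have hx' : x = hub q.1.1 ∨ x = hub q.1.2 := by
            rcases x with _ | i | m
            · exact absurd rfl hxn
            · rcases (adj_hub_mid i q r).mp h1 with h | h
              · left; rw [h]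
              · right; rw [h]
            · exact absurd h1 (not_adj_mid _ _ _ _)
          have hy' : y = hub q.1.1 ∨ y = hub q.1.2 := by
            rcases y with _ | i | m
            · exact absurd rfl hyn
            · rcases (adj_hub_mid i q r).mp h2.symm with h | h
              · left; rw [h]
              · right; rw [h]
            · exact absurd h2 (not_adj_mid _ _ _ _)
          rcases hx' with rfl | rfl <;> rcases hy' with rfl | rfl
          · exact absurd rfl hxy
          · exact ⟨hx, hy, hv⟩
          · exact ⟨hy, hx, by rw [Sym2.eq_swap]; exact hv⟩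
          · exact absurd rfl hxy
        · exact absurd h hmy

theorem support_unique {V : Type*} {G : SimpleGraph V} {x y m m' : V} (w : G.Walk x y)
    (hxy : x ≠ y) (hlen : w.length ≤ 2) (hm : m ∈ w.support) (hm' : m' ∈ w.support)
    (h1 : m ≠ x) (h2 : m ≠ y) (h3 : m' ≠ x) (h4 : m' ≠ y) : m = m' := by
  cases w with
  | nil => exact absurd rfl hxy
  | cons e1 w1 =>
    cases w1 with
    | nil =>
      simp at hm
      rcases hm with h | h
      · exact absurd h h1
      · exact absurd h h2
    | cons e2 w2 =>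
      cases w2 with
      | cons e3 w3 => simp at hlen
      | nil =>
        simp [h1, h2] at hm
        simp [h3, h4] at hm'
        rw [hm, hm']

theorem unique_mid {S : Finset (Vt a)} {P : Sym2 (Vt a) → Set (Vt a)}
    (hP : ∀ x ∈ S, ∀ y ∈ S, x ≠ y →
      ∃ w : (Gr a).Walk x y, w.length = (Gr a).dist x y ∧ P s(x, y) = {v | v ∈ w.support})
    (q : Pr a) (h1 : hub q.1.1 ∈ S) (h2 : hub q.1.2 ∈ S) (r r' : Fin 3)
    (hr : mid q r ∈ P s(hub q.1.1, hub q.1.2)) (hr' : mid q r' ∈ P s(hub q.1.1, hub q.1.2)) :
    r = r' := by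
  have hne : hub q.1.1 ≠ hub q.1.2 := by
    intro h
    have := q.2
    simp at h
    rw [h] at this
    exact lt_irrefl _ this
  obtain ⟨w, hw, hPw⟩ := hP _ h1 _ h2 hne
  rw [hPw] at hr hr'
  have hlen : w.length ≤ 2 := hw ▸ dist_le_two _ _
  have := support_unique w hne hlen hr hr' (by simp) (by simp) (by simp) (by simp)
  simpa using this

/-- Twice the number of the increasing pairs of elements of `T`. -/
theorem two_mul_card_pairs (T : Finset (Fin a)) :
    2 * ((Finset.univ : Finset (Pr a)).filter (fun q => q.1.1 ∈ T ∧ q.1.2 ∈ T)).card =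
      T.card * (T.card - 1) := by
  classical
  have h1 : T.offDiag.card = T.card * (T.card - 1) := by
    rw [Finset.offDiag_card, Nat.mul_sub, mul_one]
  have h2 : T.offDiag = (T.offDiag.filter (fun q => q.1 < q.2)) ∪
      (T.offDiag.filter (fun q => q.2 < q.1)) := by
    ext ⟨i, j⟩
    simp only [Finset.mem_union, Finset.mem_filter, Finset.mem_offDiag]
    constructor
    · intro h
      rcases lt_or_gt_of_ne h.2.2 with h' | h'
      · exact Or.inl ⟨h, h'⟩
      · exact Or.inr ⟨h, h'⟩
    · rintro (h | h) <;> exact h.1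
  have h3 : Disjoint (T.offDiag.filter (fun q => q.1 < q.2))
      (T.offDiag.filter (fun q => q.2 < q.1)) := by
    rw [Finset.disjoint_left]
    rintro ⟨i, j⟩ h h'
    simp only [Finset.mem_filter] at h h'
    exact lt_asymm h.2 h'.2
  have h4 : (T.offDiag.filter (fun q => q.2 < q.1)).card =
      (T.offDiag.filter (fun q => q.1 < q.2)).card := by
    refine Finset.card_bij (fun q _ => (q.2, q.1)) ?_ ?_ ?_
    · rintro ⟨i, j⟩ h
      simp only [Finset.mem_filter, Finset.mem_offDiag] at h ⊢
      exact ⟨⟨h.1.2.1, h.1.1, fun e => h.1.2.2 e.symm⟩, h.2⟩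
    · rintro ⟨i, j⟩ _ ⟨i', j'⟩ _ h
      simp only [Prod.mk.injEq] at h ⊢
      exact ⟨h.2, h.1⟩
    · rintro ⟨i, j⟩ h
      simp only [Finset.mem_filter, Finset.mem_offDiag] at h
      refine ⟨(j, i), ?_, rfl⟩
      simp only [Finset.mem_filter, Finset.mem_offDiag]
      exact ⟨⟨h.1.2.1, h.1.1, fun e => h.1.2.2 e.symm⟩, h.2⟩
  have h5 : ((Finset.univ : Finset (Pr a)).filter (fun q => q.1.1 ∈ T ∧ q.1.2 ∈ T)).card =
      (T.offDiag.filter (fun q => q.1 < q.2)).card := by
    refine Finset.card_bij (fun q _ => q.1) ?_ ?_ ?_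
    · rintro ⟨⟨i, j⟩, hij⟩ h
      simp only [Finset.mem_filter, Finset.mem_univ, true_and, Finset.mem_offDiag] at h ⊢
      exact ⟨⟨h.1, h.2, ne_of_lt hij⟩, hij⟩
    · rintro q _ q' _ h
      exact Subtype.ext h
    · rintro ⟨i, j⟩ h
      simp only [Finset.mem_filter, Finset.mem_offDiag] at h
      exact ⟨⟨(i, j), h.2⟩, by simp [h.1.1, h.1.2.1], rfl⟩
  rw [h5, ← h1]
  conv_rhs => rw [h2, Finset.card_union_of_disjoint h3, h4]
  ring

theorem two_mul_card_Pr : 2 * Fintype.card (Pr a) = a * (a - 1) := by
  have := two_mul_card_pairs (Finset.univ : Finset (Fin a))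
  simpa [Finset.card_univ] using this

theorem arith (a t m m' c n s : ℕ) (ha : 3 ≤ a) (hta : t ≤ a) (h1 : m + m' = 3 * c) (h2 : m' ≤ n)
    (h3 : t + m ≤ s) (h4 : 2 * n = t * (t - 1)) (h5 : 2 * c = a * (a - 1)) : a ^ 2 ≤ s := by
  obtain ⟨v, rfl⟩ : ∃ v, a = t + v := ⟨a - t, by omega⟩
  rcases Nat.eq_zero_or_pos t with h0 | h0
  · subst h0
    obtain ⟨b, rfl⟩ : ∃ b, v = b + 3 := ⟨v - 3, by omega⟩
    simp at h4 h5
    nlinarith
  · obtain ⟨u, rfl⟩ : ∃ u, t = u + 1 := ⟨t - 1, by omega⟩
    have e1 : u + 1 + v - 1 = u + v := by omega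
    rw [e1] at h5
    simp at h4
    have h6 : v * (2 * u + v) ≥ v * 1 := Nat.mul_le_mul_left _ (by
      rcases Nat.eq_zero_or_pos v with h | h
      · subst h; omega
      · omega)
    nlinarith

/-- The lower bound. -/
theorem lower (ha : 3 ≤ a) {S : Finset (Vt a)} (hS : IsStrongGeodetic (Gr a) S) :
    a ^ 2 ≤ S.card := by
  classical
  obtain ⟨P, hP, hcov⟩ := hS
  let T : Finset (Fin a) := Finset.univ.filter (fun i => hub i ∈ S)
  let M : Finset (Pr a × Fin 3) := Finset.univ.filter (fun m => mid m.1 m.2 ∈ S)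
  let M' : Finset (Pr a × Fin 3) := Finset.univ.filter (fun m => mid m.1 m.2 ∉ S)
  have hMM : M.card + M'.card = 3 * Fintype.card (Pr a) := by
    have := Finset.card_filter_add_card_filter_not (s := (Finset.univ : Finset (Pr a × Fin 3)))
      (fun m => mid m.1 m.2 ∈ S)
    rw [Finset.card_univ, Fintype.card_prod, Fintype.card_fin] at this
    show M.card + M'.card = _
    rw [mul_comm 3]
    exact this
  have hM' : M'.card ≤
      ((Finset.univ : Finset (Pr a)).filter (fun q => q.1.1 ∈ T ∧ q.1.2 ∈ T)).card := by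
    refine Finset.card_le_card_of_injOn (fun m => m.1) ?_ ?_
    · intro m hm
      have hm' : mid m.1 m.2 ∉ S := by simpa [M'] using hm
      obtain ⟨e1, e2, -⟩ := key_lower hP hcov m.1 m.2 hm'
      simp [T, e1, e2]
    · rintro ⟨q, r⟩ hm ⟨q', r'⟩ hm' h
      simp only at h
      subst h
      have e : mid q r ∉ S := by simpa [M'] using hm
      have e' : mid q r' ∉ S := by simpa [M'] using hm'
      obtain ⟨e1, e2, e3⟩ := key_lower hP hcov q r e
      obtain ⟨-, -, e4⟩ := key_lower hP hcov q r' e'
      rw [unique_mid hP q e1 e2 r r' e3 e4]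
  have hT : T.card + M.card ≤ S.card := by
    have h1 : Disjoint (T.image (fun i => (hub i : Vt a)))
        (M.image (fun m => (mid m.1 m.2 : Vt a))) := by
      rw [Finset.disjoint_left]
      intro v hv hv'
      obtain ⟨i, -, rfl⟩ := Finset.mem_image.mp hv
      obtain ⟨m, -, hm⟩ := Finset.mem_image.mp hv'
      simp at hm
    have h2 : T.image (fun i => (hub i : Vt a)) ∪ M.image (fun m => (mid m.1 m.2 : Vt a)) ⊆ S := by
      intro v hv
      rcases Finset.mem_union.mp hv with hv | hv
      · obtain ⟨i, hi, rfl⟩ := Finset.mem_image.mp hv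
        simpa [T] using hi
      · obtain ⟨m, hm, rfl⟩ := Finset.mem_image.mp hv
        simpa [M] using hm
    have h3 := Finset.card_le_card h2
    rw [Finset.card_union_of_disjoint h1, Finset.card_image_of_injective,
      Finset.card_image_of_injective] at h3
    · exact h3
    · intro m m' h
      simpa [Prod.ext_iff] using h
    · intro i j h
      simpa using h
  have hTa : T.card ≤ a := by
    have := Finset.card_le_univ T
    simpa using this
  have h1 := two_mul_card_pairs T
  have h2 := two_mul_card_Pr (a := a)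
  exact arith _ _ _ _ _ _ _ ha hTa hMM hM' hT h1 h2

theorem hub_ne (q : Pr a) : q.1.1 ≠ q.1.2 := ne_of_lt q.2

theorem pr_ext {q q' : Pr a} (h : s(q.1.1, q.1.2) = s(q'.1.1, q'.1.2)) : q = q' := by
  rw [Sym2.eq_iff] at h
  rcases h with ⟨h1, h2⟩ | ⟨h1, h2⟩
  · exact Subtype.ext (Prod.ext h1 h2)
  · have h3 := q.2
    have h4 := q'.2
    rw [h1, h2] at h3
    exact absurd h3 (not_lt.mpr h4.le)

/-- The strong geodetic set of `Gr a`. -/
def S0 (a : ℕ) : Finset (Vt a) :=
  (Finset.univ.image fun i => (hub i : Vt a)) ∪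
    ((Finset.univ : Finset (Pr a)) ×ˢ ({1, 2} : Finset (Fin 3))).image
      fun m => (mid m.1 m.2 : Vt a)

theorem hub_mem_S0 (i : Fin a) : hub i ∈ S0 a := by simp [S0]
theorem mid_mem_S0 (q : Pr a) (r : Fin 3) (hr : r ≠ 0) : mid q r ∈ S0 a := by
  have : r = 1 ∨ r = 2 := by
    fin_cases r
    · exact absurd rfl hr
    · left; rfl
    · right; rfl
  simp only [S0, Finset.mem_union, Finset.mem_image]
  right
  exact ⟨(q, r), by rcases this with h | h <;> simp [h], rfl⟩

theorem card_S0 (ha : 3 ≤ a) : (S0 a).card = a ^ 2 := by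
  classical
  rw [S0, Finset.card_union_of_disjoint, Finset.card_image_of_injective,
    Finset.card_image_of_injective, Finset.card_product]
  · have h2 := two_mul_card_Pr (a := a)
    rw [Finset.card_univ, Finset.card_univ, Fintype.card_fin]
    have : ({1, 2} : Finset (Fin 3)).card = 2 := by decide
    rw [this, mul_comm (Fintype.card _) 2, h2]
    obtain ⟨b, rfl⟩ : ∃ b, a = b + 1 := ⟨a - 1, by omega⟩
    simp
    ring
  · intro m m' h
    simpa [Prod.ext_iff] using h
  · intro i j h
    simpa using h
  · rw [Finset.disjoint_left]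
    intro v hv hv'
    obtain ⟨i, -, rfl⟩ := Finset.mem_image.mp hv
    obtain ⟨m, -, hm⟩ := Finset.mem_image.mp hv'
    simp at hm

theorem strong_S0 (ha : 3 ≤ a) : IsStrongGeodetic (Gr a) (S0 a) := by
  classical
  let i0 : Fin a := ⟨0, by omega⟩
  let i1 : Fin a := ⟨1, by omega⟩
  let q0 : Pr a := ⟨(i0, i1), by simp [i0, i1]⟩
  have hd : ∀ {x y : Vt a}, x ≠ y → ¬ (Gr a).Adj x y → (Gr a).dist x y = 2 := by
    intro x y h hn
    have h1 := connected.one_lt_dist_of_ne_of_not_adj h hn
    have h2 := dist_le_two x y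
    omega
  refine isStrongGeodetic_of connected (S0 a) ?_ (ι := Option (Pr a))
    (fun i => match i with | none => mid q0 1 | some q => hub q.1.1)
    (fun i => match i with | none => mid q0 2 | some q => hub q.1.2) ?_ ?_ ?_
    (fun i => match i with | none => {none} | some q => {mid q 0}) ?_ ?_ ?_
  · rw [card_S0 ha]
    nlinarith
  · intro i
    rcases i with _ | q
    · exact mid_mem_S0 _ _ (by decide)
    · exact hub_mem_S0 _
  · intro i
    rcases i with _ | q
    · exact mid_mem_S0 _ _ (by decide)
    · exact hub_mem_S0 _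
  · intro i
    rcases i with _ | q
    · simp
    · simp only [ne_eq, Option.some.injEq, Sum.inl.injEq]
      exact hub_ne q
  · intro i
    rcases i with _ | q
    · refine ⟨.cons (adj_some_none _) (.cons (adj_none_some _) .nil), ?_, ?_⟩
      · rw [hd]
        · rfl
        · simp
        · exact not_adj_mid _ _ _ _
      · intro v hv
        rw [Set.mem_singleton_iff] at hv
        subst hv
        simp
    · refine ⟨.cons ((adj_hub_mid _ q 0).mpr (Or.inl rfl))
        (.cons ((adj_hub_mid _ q 0).mpr (Or.inr rfl)).symm .nil), ?_, ?_⟩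
      · rw [hd]
        · rfl
        · simp only [ne_eq, Option.some.injEq, Sum.inl.injEq]
          exact hub_ne q
        · exact not_adj_hub _ _
      · intro v hv
        rw [Set.mem_singleton_iff] at hv
        subst hv
        simp
  · intro i j h
    rcases i with _ | q <;> rcases j with _ | q'
    · rfl
    · simp at h
    · simp at h
    · congr 1
      apply pr_ext
      rw [Sym2.eq_iff] at h ⊢
      simpa using h
  · intro v
    rcases v with _ | i | ⟨q, r⟩
    · right
      exact ⟨none, rfl⟩
    · left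
      exact hub_mem_S0 i
    · rcases eq_or_ne r 0 with h | h
      · subst h
        right
        exact ⟨some q, rfl⟩
      · left
        exact mid_mem_S0 q r h

theorem sg_Gr (ha : 3 ≤ a) : sg (Gr a) = a ^ 2 := by
  apply le_antisymm
  · exact Nat.sInf_le ⟨S0 a, card_S0 ha, strong_S0 ha⟩
  · refine le_csInf ⟨_, S0 a, rfl, strong_S0 ha⟩ ?_
    rintro n ⟨S, rfl, hS⟩
    exact lower ha hS

/-- The strong geodetic set of the prism over `Gr a`. -/
def S1 (a : ℕ) : Finset (Vt a × Fin 2) :=
  insert (none, 0)
    ((Finset.univ : Finset (Fin a × Fin 2)).image fun m => ((hub m.1 : Vt a), m.2))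

theorem hub_mem_S1 (i : Fin a) (b : Fin 2) : (hub i, b) ∈ S1 a := by
  simp only [S1, Finset.mem_insert, Finset.mem_image]
  right
  exact ⟨(i, b), Finset.mem_univ _, rfl⟩

theorem card_S1 : (S1 a).card = 2 * a + 1 := by
  classical
  rw [S1, Finset.card_insert_of_notMem, Finset.card_image_of_injective]
  · simp
    ring
  · rintro ⟨i, b⟩ ⟨j, c⟩ h
    simpa [Prod.ext_iff] using h
  · simp

theorem dist_prod {x y : Vt a} {b c : Fin 2} (h : x ≠ y) (hn : ¬ (Gr a).Adj x y) :
    (Gr a □ (⊤ : SimpleGraph (Fin 2))).dist (x, b) (y, c) = if b = c then 2 else 3 := by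
  rw [SimpleGraph.dist, edist_boxProd, edist_eq_two h hn, edist_top]
  split <;> rfl

theorem strong_S1 (ha : 3 ≤ a) :
    IsStrongGeodetic (Gr a □ (⊤ : SimpleGraph (Fin 2))) (S1 a) := by
  classical
  let i0 : Fin a := ⟨0, by omega⟩
  have hconn : (Gr a □ (⊤ : SimpleGraph (Fin 2))).Connected :=
    connected.boxProd (connected_top)
  have hhub : ∀ q : Pr a, hub q.1.1 ≠ hub q.1.2 := by
    intro q
    simp only [ne_eq, Option.some.injEq, Sum.inl.injEq]
    exact hub_ne q
  refine isStrongGeodetic_of hconn (S1 a) ?_ (ι := Option (Pr a × Fin 2 × Fin 2))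
    (fun i => match i with | none => (none, 0) | some (q, b, _) => (hub q.1.1, b))
    (fun i => match i with | none => (hub i0, 1) | some (q, _, c) => (hub q.1.2, c)) ?_ ?_ ?_
    (fun i => match i with
      | none => {(none, 1)}
      | some (q, b, c) => if b = c then {(mid q 0, b)} else
          if b = 0 then {(mid q 1, 0), (mid q 1, 1)} else {(mid q 2, 0), (mid q 2, 1)}) ?_ ?_ ?_
  · rw [card_S1]
    omega
  · intro i
    rcases i with _ | ⟨q, b, c⟩
    · simp [S1]
    · exact hub_mem_S1 _ _
  · intro i
    rcases i with _ | ⟨q, b, c⟩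
    · exact hub_mem_S1 _ _
    · exact hub_mem_S1 _ _
  · intro i
    rcases i with _ | ⟨q, b, c⟩
    · simp
    · intro h
      exact hhub q (congrArg Prod.fst h)
  · intro i
    rcases i with _ | ⟨q, b, c⟩
    · have e1 : (Gr a □ (⊤ : SimpleGraph (Fin 2))).Adj (none, 0) (none, 1) := by
        simp [boxProd_adj]
      have e2 : (Gr a □ (⊤ : SimpleGraph (Fin 2))).Adj (none, 1) (hub i0, 1) := by
        simp [boxProd_adj, adj_none_some]
      refine ⟨.cons e1 (.cons e2 .nil), ?_, ?_⟩
      · rw [SimpleGraph.dist, edist_boxProd, edist_top,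
          edist_eq_one_iff_adj.mpr (adj_none_some _)]
        simp
        rfl
      · intro v hv
        rw [Set.mem_singleton_iff] at hv
        subst hv
        simp
    · have hnadj := not_adj_hub q.1.1 q.1.2
      rcases eq_or_ne b c with hbc | hbc
      · subst hbc
        have e1 : (Gr a □ (⊤ : SimpleGraph (Fin 2))).Adj (hub q.1.1, b) (mid q 0, b) := by
          simp [boxProd_adj, adj_hub_mid]
        have e2 : (Gr a □ (⊤ : SimpleGraph (Fin 2))).Adj (mid q 0, b) (hub q.1.2, b) := by
          simp [boxProd_adj, (Gr a).adj_comm _ (hub q.1.2), adj_hub_mid]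
        refine ⟨.cons e1 (.cons e2 .nil), ?_, ?_⟩
        · simp only
          rw [dist_prod (hhub q) hnadj, if_pos rfl]
          rfl
        · intro v hv
          simp only [if_true, Set.mem_singleton_iff] at hv
          subst hv
          simp
      · have hm : ∀ r : Fin 3, ∃ w : (Gr a □ (⊤ : SimpleGraph (Fin 2))).Walk (hub q.1.1, b)
            (hub q.1.2, c), w.length =
              (Gr a □ (⊤ : SimpleGraph (Fin 2))).dist (hub q.1.1, b) (hub q.1.2, c) ∧
              ∀ d : Fin 2, (mid q r, d) ∈ w.support := by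
          intro r
          have e1 : (Gr a □ (⊤ : SimpleGraph (Fin 2))).Adj (hub q.1.1, b) (mid q r, b) := by
            simp [boxProd_adj, adj_hub_mid]
          have e2 : (Gr a □ (⊤ : SimpleGraph (Fin 2))).Adj (mid q r, b) (mid q r, c) := by
            simp [boxProd_adj, hbc]
          have e3 : (Gr a □ (⊤ : SimpleGraph (Fin 2))).Adj (mid q r, c) (hub q.1.2, c) := by
            simp [boxProd_adj, (Gr a).adj_comm _ (hub q.1.2), adj_hub_mid]
          refine ⟨.cons e1 (.cons e2 (.cons e3 .nil)), ?_, ?_⟩
          · rw [dist_prod (hhub q) hnadj, if_neg hbc]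
            rfl
          · intro d
            have key : ∀ b c d : Fin 2, b ≠ c → d = b ∨ d = c := by decide
            have := key b c d hbc
            rcases this with rfl | rfl <;> simp
        rcases eq_or_ne b 0 with hb | hb
        · obtain ⟨w, hw1, hw2⟩ := hm 1
          refine ⟨w, hw1, ?_⟩
          intro v hv
          simp only [if_neg hbc, if_pos hb, Set.mem_insert_iff, Set.mem_singleton_iff] at hv
          rcases hv with rfl | rfl <;> exact hw2 _
        · obtain ⟨w, hw1, hw2⟩ := hm 2
          refine ⟨w, hw1, ?_⟩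
          intro v hv
          simp only [if_neg hbc, if_neg hb, Set.mem_insert_iff, Set.mem_singleton_iff] at hv
          rcases hv with rfl | rfl <;> exact hw2 _
  · intro i j h
    rcases i with _ | ⟨q, b, c⟩ <;> rcases j with _ | ⟨q', b', c'⟩
    · rfl
    · simp at h
    · simp at h
    · rw [Sym2.eq_iff] at h
      have hq : q = q' := by
        apply pr_ext
        rw [Sym2.eq_iff]
        rcases h with ⟨h1, h2⟩ | ⟨h1, h2⟩
        · left
          simp at h1 h2
          exact ⟨h1.1, h2.1⟩
        · right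
          simp at h1 h2
          exact ⟨h1.1, h2.1⟩
      subst hq
      rcases h with ⟨h1, h2⟩ | ⟨h1, h2⟩
      · simp at h1 h2
        rw [h1, h2]
      · exact absurd (congrArg Prod.fst h1) (hhub q)
  · intro v
    rcases v with ⟨_ | i | ⟨q, r⟩, b⟩
    · rcases eq_or_ne b 0 with hb | hb
      · left
        simp [S1, hb]
      · right
        have : b = 1 := by
          revert hb
          revert b
          decide
        subst this
        exact ⟨none, rfl⟩
    · left
      exact hub_mem_S1 i b
    · right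
      have hb : b = 0 ∨ b = 1 := by
        revert b
        decide
      have hr : r = 0 ∨ r = 1 ∨ r = 2 := by
        revert r
        decide
      rcases hr with rfl | rfl | rfl
      · exact ⟨some (q, b, b), by simp⟩
      · exact ⟨some (q, 0, 1), by rcases hb with rfl | rfl <;> simp⟩
      · exact ⟨some (q, 1, 0), by rcases hb with rfl | rfl <;> simp⟩

/-- **The strong geodetic number of a prism can be much smaller than that of the base.** For every
`a ≥ 3` there is a finite connected graph `G` with `sg G = a ^ 2` and `sg (G □ K_2) ≤ 2 * a + 1`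
(which is smaller than `a ^ 2`). -/
theorem result (a : ℕ) (ha : 3 ≤ a) :
    ∃ (V : Type) (_ : Fintype V) (G : SimpleGraph V), G.Connected ∧ sg G = a ^ 2 ∧
      sg (G □ (⊤ : SimpleGraph (Fin 2))) ≤ 2 * a + 1 ∧ 2 * a + 1 < a ^ 2 :=
  ⟨Vt a, inferInstance, Gr a, connected, sg_Gr ha,
    Nat.sInf_le ⟨S1 a, card_S1, strong_S1 ha⟩, by nlinarith⟩

end Pool.Agent.Results.MP_8400ad_co.PrismCounterexamples
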